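import Mathlib

set_option autoImplicit false

open scoped InnerProductSpace

namespace Pool.Agent.H270R2

noncomputable section

/-- The constant `2/(2√2-1)`. -/
def kap : ℝ := 2 / (2 * Real.sqrt 2 - 1)

lemma sqrt2_gt : (1.4 : ℝ) < Real.sqrt 2 := by
  rw [show (1.4:ℝ) = Real.sqrt (1.4^2) by rw [Real.sqrt_sq (by norm_num)]]
  exact Real.sqrt_lt_sqrt (by norm_num) (by norm_num)

lemma sqrt2_lt : Real.sqrt 2 < (1.5 : ℝ) := by
  rw [show (1.5:ℝ) = Real.sqrt (1.5^2) by rw [Real.sqrt_sq (by norm_num)]]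
  exact Real.sqrt_lt_sqrt (by norm_num) (by norm_num)

lemma kap_eq : kap = (2 + 4 * Real.sqrt 2) / 7 := by
  unfold kap
  have h := sqrt2_gt
  have h2 : Real.sqrt 2 * Real.sqrt 2 = 2 := Real.mul_self_sqrt (by norm_num)
  rw [div_eq_div_iff (by linarith) (by norm_num)]
  nlinarith

lemma kap_pos : 1 < kap := by
  rw [kap_eq]; have := sqrt2_gt; linarith

lemma kap_lt : kap < 2 := by
  rw [kap_eq]; have := sqrt2_lt; linarith

lemma kap_id : 1 + kap = 7 / 4 * kap ^ 2 := by
  rw [kap_eq]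
  have h2 : Real.sqrt 2 * Real.sqrt 2 = 2 := Real.mul_self_sqrt (by norm_num)
  nlinarith

/-- The key inequality. -/
lemma key_ineq (a b : ℝ) :
    (kap * (a + b)) ^ 2 ≤ (a + kap * b / 2) ^ 2 + (kap * a / 2 + b) ^ 2 := by
  have h := kap_id
  have h1 := kap_pos
  have : (a + kap * b / 2) ^ 2 + (kap * a / 2 + b) ^ 2 - (kap * (a + b)) ^ 2
      = kap * (kap - 1) * (a - b) ^ 2 := by
    linear_combination (a^2 + b^2) * h
  have h3 : 0 ≤ kap * (kap - 1) * (a - b) ^ 2 := by
    apply mul_nonneg (mul_nonneg (by linarith) (by linarith)) (sq_nonneg _)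
  linarith

variable {n : ℕ}

/-- `Good S p ℓ`: dual lower bound certificate for a tree joining the vertices `e_i`, `i ∈ S`, and
the point `p`, of length `ℓ`. -/
def Good (S : Finset (Fin n)) (p : EuclideanSpace ℝ (Fin n)) (l : ℝ) : Prop :=
  ∃ (g : EuclideanSpace ℝ (Fin n)) (q G : ℝ), ‖g‖ = 1 ∧ (∀ i, i ∉ S → g i = 0) ∧
    0 < q ∧ q ≤ 1 ∧ kap * S.card ≤ G + kap * q ∧
    ∀ (x : EuclideanSpace ℝ (Fin n)) (c : ℝ), ‖x‖ ≤ 1 → (∀ i ∈ S, x i = -c * g i) →
      ⟪x, p⟫_ℝ + c * q + (Real.sqrt 3 / 2) * G ≤ l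

lemma Good.mono {S : Finset (Fin n)} {p : EuclideanSpace ℝ (Fin n)} {l l' : ℝ}
    (h : Good S p l) (hl : l ≤ l') : Good S p l' := by
  obtain ⟨g, q, G, h1, h2, h3, h4, h5, h6⟩ := h
  exact ⟨g, q, G, h1, h2, h3, h4, h5, fun x c hx hc => (h6 x c hx hc).trans hl⟩

lemma Good.leaf (i : Fin n) : Good {i} (EuclideanSpace.single i (1:ℝ)) 0 := by
  refine ⟨EuclideanSpace.single i 1, 1, 0, by simp, ?_, one_pos, le_rfl, by simp, ?_⟩
  · intro j hj
    simp at hj
    simp [hj]
  · intro x c hx hc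
    have := hc i (by simp)
    simp at this
    simp [EuclideanSpace.inner_single_right, this]

lemma Good.move {S : Finset (Fin n)} {p : EuclideanSpace ℝ (Fin n)} {l : ℝ}
    (h : Good S p l) (p' : EuclideanSpace ℝ (Fin n)) : Good S p' (l + dist p p') := by
  obtain ⟨g, q, G, h1, h2, h3, h4, h5, h6⟩ := h
  refine ⟨g, q, G, h1, h2, h3, h4, h5, fun x c hx hc => ?_⟩
  have h7 := h6 x c hx hc
  have h8 : ⟪x, p' - p⟫_ℝ ≤ dist p p' := by
    calc ⟪x, p' - p⟫_ℝ ≤ ‖x‖ * ‖p' - p‖ := real_inner_le_norm _ _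
      _ ≤ 1 * ‖p' - p‖ := by gcongr
      _ = dist p p' := by rw [one_mul, dist_comm, dist_eq_norm]
  rw [inner_sub_right] at h8
  linarith

lemma inner_eq_zero_of_disj {S T : Finset (Fin n)} (hST : Disjoint S T)
    {g h : EuclideanSpace ℝ (Fin n)} (hg : ∀ i, i ∉ S → g i = 0) (hh : ∀ i, i ∉ T → h i = 0) :
    ⟪g, h⟫_ℝ = 0 := by
  rw [PiLp.inner_apply]
  apply Finset.sum_eq_zero
  intro i _
  by_cases hi : i ∈ S
  · have : i ∉ T := Finset.disjoint_left.1 hST hi
    simp [hh i this]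
  · simp [hg i hi]

lemma Good.merge {S T : Finset (Fin n)} {p : EuclideanSpace ℝ (Fin n)} {l l' : ℝ}
    (h : Good S p l) (h' : Good T p l') (hST : Disjoint S T) : Good (S ∪ T) p (l + l') := by
  obtain ⟨g1, q1, G1, a1, a2, a3, a4, a5, a6⟩ := h
  obtain ⟨g2, q2, G2, b1, b2, b3, b4, b5, b6⟩ := h'
  have hk := kap_pos
  set A := q1 + kap * q2 / 2 with hA
  set B := kap * q1 / 2 + q2 with hB
  have hApos : 0 < A := by positivity
  have hBpos : 0 < B := by positivity
  set r := Real.sqrt (A ^ 2 + B ^ 2) with hr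
  have hrpos : 0 < r := Real.sqrt_pos.2 (by positivity)
  have hr2 : r ^ 2 = A ^ 2 + B ^ 2 := Real.sq_sqrt (by positivity)
  have hkey : kap * (q1 + q2) ≤ r := by
    apply Real.le_sqrt_of_sq_le
    exact key_ineq q1 q2
  set s := A / r with hs
  set c := B / r with hc
  have hspos : 0 < s := by positivity
  have hcpos : 0 < c := by positivity
  have hsc : s ^ 2 + c ^ 2 = 1 := by
    rw [hs, hc, div_pow, div_pow, ← add_div, ← hr2, div_self (by positivity)]
  have hs1 : s ≤ 1 := by nlinarith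
  have hc1 : c ≤ 1 := by nlinarith
  have hval : s * A + c * B = r := by
    rw [hs, hc]
    field_simp
    linarith
  have horth : ⟪g1, g2⟫_ℝ = 0 := inner_eq_zero_of_disj hST a2 b2
  have n1 : ⟪g1, g1⟫_ℝ = 1 := by rw [real_inner_self_eq_norm_sq, a1]; norm_num
  have n2 : ⟪g2, g2⟫_ℝ = 1 := by rw [real_inner_self_eq_norm_sq, b1]; norm_num
  have horth' : ⟪g2, g1⟫_ℝ = 0 := by rw [real_inner_comm]; exact horth
  refine ⟨c • g1 + s • g2, (c * q1 + s * q2) / 2, G1 + G2 + c * q2 + s * q1, ?_, ?_, by positivity,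
    ?_, ?_, ?_⟩
  · have : ‖c • g1 + s • g2‖ ^ 2 = 1 := by
      rw [← real_inner_self_eq_norm_sq]
      simp only [inner_add_left, inner_add_right, inner_smul_left, inner_smul_right, n1, n2, horth,
        horth', conj_trivial]
      linear_combination hsc
    have h0 : 0 ≤ ‖c • g1 + s • g2‖ := norm_nonneg _
    nlinarith [sq_nonneg (‖c • g1 + s • g2‖ - 1), sq_nonneg (‖c • g1 + s • g2‖ + 1)]
  · intro i hi
    simp only [Finset.mem_union, not_or] at hi
    simp [a2 i hi.1, b2 i hi.2]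
  · nlinarith
  · rw [Finset.card_union_of_disjoint hST]
    push_cast
    have e : G1 + G2 + c * q2 + s * q1 + kap * ((c * q1 + s * q2) / 2)
        = G1 + G2 + (s * A + c * B) := by rw [hA, hB]; ring
    rw [e, hval]
    linarith
  · intro x t hx hxt
    obtain ⟨y, hy⟩ : ∃ y : EuclideanSpace ℝ (Fin n), y = c • g2 - s • g1 := ⟨_, rfl⟩
    have hyy : ⟪y, y⟫_ℝ = 1 := by
      rw [hy]
      simp only [inner_sub_left, inner_sub_right, inner_smul_left, inner_smul_right, n1, n2, horth,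
        horth', conj_trivial]
      linear_combination hsc
    have hy1 : ‖y‖ ^ 2 = 1 := by rw [← real_inner_self_eq_norm_sq, hyy]
    have hxi1 : ∀ i ∈ S, x i = -t * (c * g1 i) := by
      intro i hi
      have := hxt i (Finset.mem_union_left _ hi)
      rw [this]
      simp [b2 i (Finset.disjoint_left.1 hST hi)]
    have hxi2 : ∀ i ∈ T, x i = -t * (s * g2 i) := by
      intro i hi
      have := hxt i (Finset.mem_union_right _ hi)
      rw [this]
      simp [a2 i (Finset.disjoint_right.1 hST hi)]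
    have hxg1 : ⟪x, g1⟫_ℝ = -t * c := by
      have : ⟪x, g1⟫_ℝ = (-t * c) * ⟪g1, g1⟫_ℝ := by
        rw [PiLp.inner_apply, PiLp.inner_apply, Finset.mul_sum]
        apply Finset.sum_congr rfl
        intro i _
        by_cases hi : i ∈ S
        · simp [hxi1 i hi]; ring
        · simp [a2 i hi]
      rw [this, n1, mul_one]
    have hxg2 : ⟪x, g2⟫_ℝ = -t * s := by
      have : ⟪x, g2⟫_ℝ = (-t * s) * ⟪g2, g2⟫_ℝ := by
        rw [PiLp.inner_apply, PiLp.inner_apply, Finset.mul_sum]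
        apply Finset.sum_congr rfl
        intro i _
        by_cases hi : i ∈ T
        · simp [hxi2 i hi]; ring
        · simp [b2 i hi]
      rw [this, n2, mul_one]
    have hxy : ⟪x, y⟫_ℝ = 0 := by
      rw [hy]
      simp only [inner_sub_right, inner_smul_right, hxg1, hxg2]
      ring
    have h3 : Real.sqrt 3 ^ 2 = 3 := Real.sq_sqrt (by norm_num)
    have hx2 : ‖x‖ ^ 2 ≤ 1 := by nlinarith [norm_nonneg x]
    have hn1 : ‖(1/2 : ℝ) • x + (Real.sqrt 3 / 2) • y‖ ≤ 1 := by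
      rw [← abs_of_nonneg (norm_nonneg ((1/2 : ℝ) • x + (Real.sqrt 3 / 2) • y)),
        ← abs_one (α := ℝ), ← sq_le_sq, ← real_inner_self_eq_norm_sq]
      simp only [inner_add_left, inner_add_right, inner_smul_left, inner_smul_right, conj_trivial]
      rw [real_inner_comm x y, hxy, hyy, real_inner_self_eq_norm_sq]
      nlinarith
    have hn2 : ‖(1/2 : ℝ) • x - (Real.sqrt 3 / 2) • y‖ ≤ 1 := by
      rw [← abs_of_nonneg (norm_nonneg ((1/2 : ℝ) • x - (Real.sqrt 3 / 2) • y)),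
        ← abs_one (α := ℝ), ← sq_le_sq, ← real_inner_self_eq_norm_sq]
      simp only [inner_sub_left, inner_sub_right, inner_smul_left, inner_smul_right, conj_trivial]
      rw [real_inner_comm x y, hxy, hyy, real_inner_self_eq_norm_sq]
      nlinarith
    have k1 := a6 ((1/2 : ℝ) • x + (Real.sqrt 3 / 2) • y) (t * c / 2 + Real.sqrt 3 / 2 * s) hn1 (by
      intro i hi
      simp only [PiLp.add_apply, PiLp.sub_apply, PiLp.smul_apply, smul_eq_mul, hy, hxi1 i hi,
        b2 i (Finset.disjoint_left.1 hST hi)]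
      ring)
    have k2 := b6 ((1/2 : ℝ) • x - (Real.sqrt 3 / 2) • y) (t * s / 2 + Real.sqrt 3 / 2 * c) hn2 (by
      intro i hi
      simp only [PiLp.sub_apply, PiLp.smul_apply, smul_eq_mul, hy, hxi2 i hi,
        a2 i (Finset.disjoint_right.1 hST hi)]
      ring)
    simp only [inner_add_left, inner_sub_left, inner_smul_left, conj_trivial] at k1 k2
    linarith

end

end Pool.Agent.H270R2
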