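import Mathlib
import Pool.Agent.H270R2.SimplexLower

set_option autoImplicit false

open scoped InnerProductSpace

namespace Pool.Agent.H270R2

noncomputable section

open Classical in
/-- Length of a graph with vertices placed by `pos`. -/
def glen {V E : Type} [Fintype V] [PseudoMetricSpace E] (G : SimpleGraph V) (pos : V → E) : ℝ :=
  (∑ x, ∑ y, if G.Adj x y then dist (pos x) (pos y) else 0) / 2

lemma sum_compl {V : Type} [Fintype V] (v : V) [Fintype ↑({v}ᶜ : Set V)] (F : V → ℝ) :
    ∑ x, F x = F v + ∑ x : ↑({v}ᶜ : Set V), F x := by
  classical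
  rw [Fintype.sum_eq_add_sum_subtype_ne F v]
  congr 1
  let e : {i // i ≠ v} ≃ ↑({v}ᶜ : Set V) := Equiv.subtypeEquivRight (fun i => by simp)
  exact Fintype.sum_equiv e _ _ (fun x => rfl)

lemma glen_remove {V E : Type} [Fintype V] [PseudoMetricSpace E] (G : SimpleGraph V) (pos : V → E)
    {u v : V} (huv : G.Adj u v) [Fintype ↑({v}ᶜ : Set V)] :
    glen (G.induce {v}ᶜ) (fun x => pos x) + dist (pos v) (pos u) ≤ glen G pos := by
  classical
  unfold glen
  set f : V → V → ℝ := fun x y => if G.Adj x y then dist (pos x) (pos y) else 0 with hf
  have hf0 : ∀ x y, 0 ≤ f x y := by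
    intro x y; simp only [hf]; split_ifs <;> positivity
  have e0 : (∑ x, ∑ y, if G.Adj x y then dist (pos x) (pos y) else 0) = ∑ x, ∑ y, f x y := by
    apply Finset.sum_congr rfl; intro x _; apply Finset.sum_congr rfl; intro y _
    simp only [hf]
  have e1 : ∑ x, ∑ y, f x y = ∑ y, f v y + ∑ x : ↑({v}ᶜ : Set V), ∑ y, f x y := sum_compl v _
  have e2 : ∀ x : ↑({v}ᶜ : Set V), ∑ y, f x y = f x v + ∑ y : ↑({v}ᶜ : Set V), f x y :=
    fun x => sum_compl v _
  have huv' : u ∈ ({v}ᶜ : Set V) := by
    simp only [Set.mem_compl_iff, Set.mem_singleton_iff]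
    exact huv.ne
  have e3 : dist (pos v) (pos u) ≤ ∑ y, f v y := by
    have : dist (pos v) (pos u) = f v u := by simp [hf, huv.symm]
    rw [this]
    exact Finset.single_le_sum (f := fun y => f v y) (fun y _ => hf0 v y) (Finset.mem_univ u)
  have e4 : dist (pos v) (pos u) ≤ ∑ x : ↑({v}ᶜ : Set V), f x v := by
    have : dist (pos v) (pos u) = f ((⟨u, huv'⟩ : ↑({v}ᶜ : Set V)) : V) v := by
      simp [hf, huv, dist_comm]
    rw [this]
    exact Finset.single_le_sum (f := fun x : ↑({v}ᶜ : Set V) => f x v) (fun y _ => hf0 _ _)
      (Finset.mem_univ _)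
  have e5 : (∑ x : ↑({v}ᶜ : Set V), ∑ y : ↑({v}ᶜ : Set V),
      if (G.induce {v}ᶜ).Adj x y then dist (pos x) (pos y) else 0)
      = ∑ x : ↑({v}ᶜ : Set V), ∑ y : ↑({v}ᶜ : Set V), f x y := by
    apply Finset.sum_congr rfl; intro x _; apply Finset.sum_congr rfl; intro y _
    simp only [hf, SimpleGraph.comap_adj, Function.Embedding.subtype_apply]
  rw [e0, e1]
  simp_rw [e2]
  rw [Finset.sum_add_distrib]
  have e6 := e5
  linarith

variable {n : ℕ}

lemma graph_good : ∀ (k : ℕ) (V : Type) [Fintype V] (G : SimpleGraph V)
    (pos : V → EuclideanSpace ℝ (Fin n)) (A : V → Finset (Fin n)) (w : V → ℝ),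
    Fintype.card V = k → G.Connected → (∀ u v, u ≠ v → Disjoint (A u) (A v)) →
    (∀ v, 0 ≤ w v ∧ (A v = ∅ ∨ Good (A v) (pos v) (w v))) →
    ∃ (S : Finset (Fin n)) (p : EuclideanSpace ℝ (Fin n)) (l : ℝ),
      (∀ i, i ∈ S ↔ ∃ v, i ∈ A v) ∧ 0 ≤ l ∧ (S = ∅ ∨ Good S p l) ∧ l ≤ glen G pos + ∑ v, w v := by
  intro k
  induction k with
  | zero =>
    intro V _ G pos A w hk hG
    exfalso
    have := hG.nonempty
    have := Fintype.card_pos (α := V)
    omega
  | succ k ih =>
    intro V _ G pos A w hk hG hA hw
    classical
    rcases Nat.eq_zero_or_pos k with rfl | hkpos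
    · -- one vertex
      obtain ⟨v⟩ := hG.nonempty
      have hsub : Subsingleton V := by
        rw [← Fintype.card_le_one_iff_subsingleton]; omega
      refine ⟨A v, pos v, w v, ?_, (hw v).1, (hw v).2, ?_⟩
      · intro i
        constructor
        · intro h; exact ⟨v, h⟩
        · rintro ⟨u, hu⟩; rwa [Subsingleton.elim u v] at hu
      · have h1 : 0 ≤ glen G pos := by
          unfold glen
          apply div_nonneg _ (by norm_num)
          apply Finset.sum_nonneg; intro x _
          apply Finset.sum_nonneg; intro y _
          split_ifs <;> positivity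
        have h2 : w v ≤ ∑ v, w v :=
          Finset.single_le_sum (f := w) (fun y _ => (hw y).1) (Finset.mem_univ v)
        linarith
    · have hnt : Nontrivial V := by
        rw [← Fintype.one_lt_card_iff_nontrivial]; omega
      obtain ⟨v, hv⟩ := hG.exists_connected_induce_compl_singleton_of_finite_nontrivial
      obtain ⟨u, hu⟩ : ∃ u, G.Adj u v := by
        have := hG.preconnected.minDegree_pos_of_nontrivial
        obtain ⟨x, hx⟩ := exists_ne v
        obtain ⟨p⟩ := hG.preconnected v x
        cases p with
        | nil => exact absurd rfl hx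
        | cons h p => exact ⟨_, h.symm⟩
      have huv : u ≠ v := hu.ne
      have huv' : u ∈ ({v}ᶜ : Set V) := by simpa using huv
      let V' := ↑({v}ᶜ : Set V)
      have hcard : Fintype.card V' = k := by
        have : Fintype.card V' = Fintype.card V - 1 := by
          rw [Fintype.card_compl_set]; simp
        omega
      let A' : V' → Finset (Fin n) := fun x => if (x : V) = u then A u ∪ A v else A x
      let w' : V' → ℝ := fun x => if (x : V) = u then w u + (w v + dist (pos v) (pos u)) else w x
      obtain ⟨S, p, l, h1, h2, h3, h4⟩ := ih V' (G.induce {v}ᶜ) (fun x => pos x) A' w' hcard hv (by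
        intro x y hxy
        have hxy' : (x : V) ≠ y := fun h => hxy (Subtype.ext h)
        have hx : (x : V) ≠ v := x.2
        have hy : (y : V) ≠ v := y.2
        simp only [A']
        split_ifs with h h'
        · exact absurd (h.trans h'.symm) hxy'
        · rw [Finset.disjoint_union_left]
          exact ⟨hA _ _ (Ne.symm h'), hA _ _ (Ne.symm hy)⟩
        · rw [Finset.disjoint_union_right]
          exact ⟨hA _ _ h, hA _ _ hx⟩
        · exact hA _ _ hxy') (by
        intro x
        simp only [A', w']
        split_ifs with h
        · have hwu := hw u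
          have hwv := hw v
          refine ⟨by have := dist_nonneg (x := pos v) (y := pos u); linarith [hwu.1, hwv.1], ?_⟩
          rcases hwv.2 with hv0 | hvg
          · rcases hwu.2 with hu0 | hug
            · left; simp [hv0, hu0]
            · right
              rw [hv0, Finset.union_empty, h]
              exact hug.mono (by have := dist_nonneg (x := pos v) (y := pos u); linarith [hwv.1])
          · right
            rw [h]
            have hmv := hvg.move (pos u)
            rcases hwu.2 with hu0 | hug
            · rw [hu0, Finset.empty_union]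
              exact hmv.mono (by linarith [hwu.1])
            · exact hug.merge hmv (hA u v huv)
        · exact hw x)
      refine ⟨S, p, l, ?_, h2, h3, ?_⟩
      · intro i
        rw [h1]
        constructor
        · rintro ⟨x, hx⟩
          simp only [A'] at hx
          split_ifs at hx with h
          · rcases Finset.mem_union.1 hx with h' | h'
            · exact ⟨_, h'⟩
            · exact ⟨_, h'⟩
          · exact ⟨_, hx⟩
        · rintro ⟨x, hx⟩
          by_cases hxv : x = v
          · refine ⟨⟨u, huv'⟩, ?_⟩
            simp only [A', if_true]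
            exact Finset.mem_union_right _ (hxv ▸ hx)
          · have hxv' : x ∈ ({v}ᶜ : Set V) := by simpa using hxv
            refine ⟨⟨x, hxv'⟩, ?_⟩
            simp only [A']
            split_ifs with h
            · exact Finset.mem_union_left _ (h ▸ hx)
            · exact hx
      · have e1 : ∑ x, w x = w v + ∑ x : V', w x := sum_compl v _
        have e2 : ∑ x : V', w' x = ∑ x : V', w x + (w v + dist (pos v) (pos u)) := by
          have : ∀ x : V', w' x = w x + (if x = ⟨u, huv'⟩ then w v + dist (pos v) (pos u) else 0) := by
            intro x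
            simp only [w']
            by_cases h : (x : V) = u
            · have : x = ⟨u, huv'⟩ := Subtype.ext h
              simp [this]
            · have : x ≠ ⟨u, huv'⟩ := fun h' => h (by rw [h'])
              simp [this, h]
          simp_rw [this]
          rw [Finset.sum_add_distrib]
          simp
        have e3 := glen_remove G pos hu
        linarith

/-- The lower bound: a connected graph whose vertex set contains all the `e_i` has length at least
`(√3/2) κ (n - 1)`. -/
theorem smt_lower (V : Type) [Fintype V] (G : SimpleGraph V)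
    (pos : V → EuclideanSpace ℝ (Fin n)) (hG : G.Connected)
    (hn : 0 < n)
    (hcov : ∀ i : Fin n, ∃ v, pos v = EuclideanSpace.single i (1:ℝ)) :
    Real.sqrt 3 / 2 * (kap * (n - 1)) ≤ glen G pos := by
  classical
  choose t ht using hcov
  have htinj : Function.Injective t := by
    intro i j hij
    have : EuclideanSpace.single i (1:ℝ) = EuclideanSpace.single j (1:ℝ) := by
      rw [← ht, ← ht, hij]
    by_contra hne
    have h1 := congrArg (fun z : EuclideanSpace ℝ (Fin n) => z i) this
    simp [hne] at h1
  obtain ⟨S, p, l, h1, h2, h3, h4⟩ := graph_good (n := n) (Fintype.card V) V G pos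
    (fun v => Finset.univ.filter (fun i => t i = v)) (fun _ => 0) rfl hG (by
      intro u v huv
      rw [Finset.disjoint_left]
      intro i hi hi'
      simp at hi hi'
      exact huv (hi.symm.trans hi')) (by
      intro v
      refine ⟨le_rfl, ?_⟩
      by_cases h : ∃ i, t i = v
      · obtain ⟨i, hi⟩ := h
        right
        have : (Finset.univ.filter (fun j => t j = v)) = {i} := by
          ext j
          simp only [Finset.mem_filter, Finset.mem_univ, true_and, Finset.mem_singleton]
          constructor
          · intro hj; exact htinj (hj.trans hi.symm)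
          · rintro rfl; exact hi
        rw [this, ← hi, ht]
        exact Good.leaf i
      · left
        push Not at h
        ext j
        simp [h j])
  have hS : S = Finset.univ := by
    ext i
    rw [h1]
    simp
  simp only [Finset.sum_const_zero, add_zero] at h4
  rcases h3 with h3 | h3
  · exfalso
    rw [hS] at h3
    have := Finset.mem_univ (⟨0, hn⟩ : Fin n)
    rw [h3] at this
    simp at this
  · obtain ⟨g, q, G', a1, a2, a3, a4, a5, a6⟩ := h3
    have a7 := a6 0 0 (by simp) (by intro i _; simp)
    simp only [inner_zero_left, zero_mul, add_zero, zero_add] at a7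
    have hcard : (S.card : ℝ) = n := by rw [hS]; simp
    rw [hcard] at a5
    have hk := kap_pos
    have h5 : kap * (n - 1) ≤ G' := by nlinarith
    have h6 : Real.sqrt 3 / 2 * (kap * (n - 1)) ≤ Real.sqrt 3 / 2 * G' := by gcongr
    linarith

end

end Pool.Agent.H270R2
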