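import Mathlib
import Pool.Agent.H270R2.SimplexGraph

set_option autoImplicit false

open scoped InnerProductSpace

namespace Pool.Agent.H270R2

noncomputable section

lemma glen_map {V W E : Type} [Fintype V] [Fintype W] [PseudoMetricSpace E] (G : SimpleGraph V)
    (f : V ↪ W) (pos : W → E) : glen (G.map f) pos = glen G (fun v => pos (f v)) := by
  classical
  unfold glen
  congr 1
  symm
  apply Fintype.sum_of_injective f f.injective
  · intro i hi
    apply Finset.sum_eq_zero
    intro j _
    rw [if_neg]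
    rw [SimpleGraph.map_adj]
    rintro ⟨a, b, h, rfl, rfl⟩
    exact hi ⟨a, rfl⟩
  · intro i
    apply Fintype.sum_of_injective f f.injective
    · intro j hj
      rw [if_neg]
      rw [SimpleGraph.map_adj]
      rintro ⟨a, b, h, h', rfl⟩
      exact hj ⟨b, rfl⟩
    · intro j
      simp

lemma glen_sup_le {V E : Type} [Fintype V] [PseudoMetricSpace E] (G H : SimpleGraph V)
    (pos : V → E) : glen (G ⊔ H) pos ≤ glen G pos + glen H pos := by
  classical
  unfold glen
  rw [← add_div]
  apply div_le_div_of_nonneg_right _ (by norm_num)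
  rw [← Finset.sum_add_distrib]
  apply Finset.sum_le_sum
  intro x _
  rw [← Finset.sum_add_distrib]
  apply Finset.sum_le_sum
  intro y _
  have := dist_nonneg (x := pos x) (y := pos y)
  simp only [SimpleGraph.sup_adj]
  by_cases h1 : G.Adj x y <;> by_cases h2 : H.Adj x y <;> simp [h1, h2, this]

/-- There is a connected graph on the point set `T` of length at most `l`. -/
def Conn {E : Type} [PseudoMetricSpace E] (T : Finset E) (l : ℝ) : Prop :=
  ∃ G : SimpleGraph T, G.Connected ∧ glen G (fun x : T => (x : E)) ≤ l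

lemma Conn.mono {E : Type} [PseudoMetricSpace E] {T : Finset E} {l l' : ℝ} (h : Conn T l)
    (hl : l ≤ l') : Conn T l' := by
  obtain ⟨G, h1, h2⟩ := h
  exact ⟨G, h1, h2.trans hl⟩

lemma Conn.single {E : Type} [PseudoMetricSpace E] (p : E) : Conn ({p} : Finset E) 0 := by
  refine ⟨⊥, ?_, ?_⟩
  · rw [SimpleGraph.connected_iff]
    refine ⟨?_, ⟨⟨p, by simp⟩⟩⟩
    intro x y
    have : x = y := by
      apply Subtype.ext
      rw [Finset.mem_singleton.1 x.2, Finset.mem_singleton.1 y.2]
    rw [this]
  · simp [glen]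

lemma Conn.union {E : Type} [PseudoMetricSpace E] [DecidableEq E] {T1 T2 : Finset E} {l1 l2 : ℝ}
    (h1 : Conn T1 l1) (h2 : Conn T2 l2) (p : E) (hp1 : p ∈ T1) (hp2 : p ∈ T2) :
    Conn (T1 ∪ T2) (l1 + l2) := by
  obtain ⟨G1, c1, k1⟩ := h1
  obtain ⟨G2, c2, k2⟩ := h2
  let f1 : T1 ↪ ↥(T1 ∪ T2) :=
    ⟨fun x => ⟨x, Finset.mem_union_left _ x.2⟩, fun x y h => by
      apply Subtype.ext
      exact congrArg (fun z : ↥(T1 ∪ T2) => (z : E)) h⟩
  let f2 : T2 ↪ ↥(T1 ∪ T2) :=
    ⟨fun x => ⟨x, Finset.mem_union_right _ x.2⟩, fun x y h => by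
      apply Subtype.ext
      exact congrArg (fun z : ↥(T1 ∪ T2) => (z : E)) h⟩
  refine ⟨G1.map f1 ⊔ G2.map f2, ?_, ?_⟩
  · have hP : ∀ x : ↥(T1 ∪ T2), (G1.map f1 ⊔ G2.map f2).Reachable x
        ⟨p, Finset.mem_union_left _ hp1⟩ := by
      intro x
      rcases Finset.mem_union.1 x.2 with hx | hx
      · have := (c1.preconnected ⟨x, hx⟩ ⟨p, hp1⟩).map (⟨f1, by
          intro a b hab
          left
          rw [SimpleGraph.map_adj]
          exact ⟨a, b, hab, rfl, rfl⟩⟩ : G1 →g (G1.map f1 ⊔ G2.map f2))
        exact this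
      · have := (c2.preconnected ⟨x, hx⟩ ⟨p, hp2⟩).map (⟨f2, by
          intro a b hab
          right
          rw [SimpleGraph.map_adj]
          exact ⟨a, b, hab, rfl, rfl⟩⟩ : G2 →g (G1.map f1 ⊔ G2.map f2))
        exact this
    rw [SimpleGraph.connected_iff]
    exact ⟨fun x y => (hP x).trans (hP y).symm, ⟨⟨p, Finset.mem_union_left _ hp1⟩⟩⟩
  · refine (glen_sup_le _ _ _).trans ?_
    rw [glen_map, glen_map]
    exact add_le_add k1 k2

lemma Conn.pair {E : Type} [PseudoMetricSpace E] [DecidableEq E] (p q : E) :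
    Conn ({p, q} : Finset E) (dist p q) := by
  by_cases hpq : p = q
  · subst hpq
    simpa using Conn.single p
  · refine ⟨⊤, ?_, ?_⟩
    · have : Nonempty ↥({p, q} : Finset E) := ⟨⟨p, by simp⟩⟩
      exact SimpleGraph.connected_top
    · let e : ({p, q} : Finset E) ≃ Bool :=
        { toFun := fun x => if (x : E) = p then true else false
          invFun := fun b => if b then ⟨p, by simp⟩ else ⟨q, by simp⟩
          left_inv := by
            intro x
            rcases Finset.mem_insert.1 x.2 with h | h
            · apply Subtype.ext; simp [h]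
            · have h' := Finset.mem_singleton.1 h
              apply Subtype.ext
              simp [h', Ne.symm hpq]
          right_inv := by
            intro b
            cases b
            · simp [Ne.symm hpq]
            · simp }
      have hs : ∀ F : ({p, q} : Finset E) → ℝ, ∑ x, F x = F ⟨p, by simp⟩ + F ⟨q, by simp⟩ := by
        intro F
        rw [← e.symm.sum_comp]
        simp [e]
      unfold glen
      rw [hs, hs, hs]
      simp [hpq, Ne.symm hpq, dist_comm]

end

end Pool.Agent.H270R2
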