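import Mathlib
import Pool.Agent.H270R2.SimplexUpper

set_option autoImplicit false

open scoped InnerProductSpace

namespace Pool.Agent.H270R2

noncomputable section

variable {N : ℕ}

/-- Centroid of the vertices in `S`. -/
def cen (S : Finset (Fin N)) : EuclideanSpace ℝ (Fin N) :=
  WithLp.toLp 2 (fun j => if j ∈ S then 1 / (S.card : ℝ) else 0)

lemma cen_apply (S : Finset (Fin N)) (j : Fin N) :
    cen S j = if j ∈ S then 1 / (S.card : ℝ) else 0 := rfl

lemma cen_singleton (i : Fin N) : cen {i} = EuclideanSpace.single i (1:ℝ) := by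
  ext j
  simp [cen_apply]

lemma inner_cen (S : Finset (Fin N)) (hS : S.Nonempty) (x : EuclideanSpace ℝ (Fin N)) (a : ℝ)
    (hx : ∀ i ∈ S, x i = a) : ⟪x, cen S⟫_ℝ = a := by
  rw [PiLp.inner_apply]
  have : ∀ j : Fin N, ⟪x j, cen S j⟫_ℝ = if j ∈ S then a / S.card else 0 := by
    intro j
    rw [cen_apply]
    split_ifs with h
    · rw [hx j h]; simp [div_eq_mul_inv]; ring
    · simp
  simp_rw [this]
  rw [Finset.sum_ite_mem]
  simp
  have : (S.card : ℝ) ≠ 0 := by exact_mod_cast (Finset.card_pos.2 hS).ne'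
  field_simp

lemma cen_self (S : Finset (Fin N)) (hS : S.Nonempty) : ⟪cen S, cen S⟫_ℝ = 1 / S.card :=
  inner_cen S hS _ _ (fun i hi => by simp [cen_apply, hi])

lemma cen_disj (S T : Finset (Fin N)) (hT : T.Nonempty) (h : Disjoint S T) :
    ⟪cen S, cen T⟫_ℝ = 0 :=
  inner_cen T hT _ _ (fun i hi => by
    have : i ∉ S := Finset.disjoint_right.1 h hi
    simp [cen_apply, this])

/-- `1/√2`. -/
def rr : ℝ := 1 / Real.sqrt 2

lemma rr_pos : 0 < rr := by unfold rr; positivity

lemma rr_sq : rr ^ 2 = 1 / 2 := by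
  unfold rr; rw [div_pow, Real.sq_sqrt (by norm_num)]; norm_num

lemma rr_lt : rr < 1 := by
  have := rr_sq; have := rr_pos; nlinarith

lemma rr_gt : 1/2 < rr := by
  have := rr_sq; have := rr_pos; nlinarith

lemma sqrt2_rr : Real.sqrt 2 * rr = 1 := by
  unfold rr; field_simp

lemma rr_pow_sq (k : ℕ) : (rr ^ k) ^ 2 = 1 / 2 ^ k := by
  rw [← pow_mul, mul_comm, pow_mul, rr_sq, div_pow, one_pow]

/-- The constant `√3/(2√2-1)`. -/
def cc : ℝ := Real.sqrt 3 / (2 * Real.sqrt 2 - 1)

lemma cc_pos : 0 < cc := by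
  unfold cc
  have := sqrt2_gt
  apply div_pos (by positivity) (by linarith)

lemma cc_eq : cc * (2 - rr) = Real.sqrt 3 * rr := by
  unfold cc
  have := sqrt2_gt
  have h1 := sqrt2_rr
  rw [div_mul_eq_mul_div, div_eq_iff (by linarith)]
  linear_combination (-2 * Real.sqrt 3) * h1

lemma block (k : ℕ) : ∀ (S : Finset (Fin N)), S.card = 2 ^ k →
    ∀ (x : EuclideanSpace ℝ (Fin N)), ‖x‖ = 1 → (∀ i ∈ S, ∀ j ∈ S, x i = x j) →
    ∀ t : ℝ, rr ^ k / Real.sqrt 3 ≤ t →
    ∃ T : Finset (EuclideanSpace ℝ (Fin N)), Conn T (cc * (2 ^ k - rr ^ k) + t) ∧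
      (∀ i ∈ S, EuclideanSpace.single i (1:ℝ) ∈ T) ∧ cen S + t • x ∈ T := by
  classical
  induction k with
  | zero =>
    intro S hS x hx _ t ht
    obtain ⟨i, rfl⟩ := Finset.card_eq_one.1 hS
    refine ⟨{EuclideanSpace.single i (1:ℝ), EuclideanSpace.single i (1:ℝ) + t • x}, ?_, ?_, ?_⟩
    · have h0 : 0 ≤ t := le_trans (by positivity) ht
      refine (Conn.pair _ _).mono ?_
      simp [norm_smul, hx, abs_of_nonneg h0]
    · simp
    · rw [cen_singleton]; simp
  | succ k ih =>
    intro S hS x hx hxS t ht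
    have h3 : (0:ℝ) < Real.sqrt 3 := by positivity
    have h33 : Real.sqrt 3 * Real.sqrt 3 = 3 := Real.mul_self_sqrt (by norm_num)
    obtain ⟨S1, hS1, hc1⟩ := Finset.exists_subset_card_eq (s := S) (n := 2 ^ k)
      (by rw [hS, pow_succ]; omega)
    set S2 := S \ S1 with hS2
    have hc2 : S2.card = 2 ^ k := by
      rw [hS2, Finset.card_sdiff_of_subset hS1, hS, hc1, pow_succ]; omega
    have hdisj : Disjoint S1 S2 := Finset.disjoint_sdiff
    have hne1 : S1.Nonempty := Finset.card_pos.1 (by rw [hc1]; positivity)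
    have hne2 : S2.Nonempty := Finset.card_pos.1 (by rw [hc2]; positivity)
    have hsub2 : S2 ⊆ S := Finset.sdiff_subset
    obtain ⟨i0, hi0⟩ := hne1
    set a := x i0 with ha
    have hxa : ∀ i ∈ S, x i = a := fun i hi => hxS i hi i0 (hS1 hi0)
    have hrk : 0 < rr ^ k := pow_pos rr_pos k
    obtain ⟨y, hy⟩ : ∃ y : EuclideanSpace ℝ (Fin N),
      y = (1 / (Real.sqrt 2 * rr ^ k)) • (cen S2 - cen S1) := ⟨_, rfl⟩
    have hs2 : Real.sqrt 2 * Real.sqrt 2 = 2 := Real.mul_self_sqrt (by norm_num)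
    have hs2p : 0 < Real.sqrt 2 := by positivity
    have hyy : ⟪y, y⟫_ℝ = 1 := by
      rw [hy]
      simp only [inner_sub_left, inner_sub_right, inner_smul_left, inner_smul_right, conj_trivial]
      rw [cen_self _ hne2, cen_self _ ⟨i0, hi0⟩, cen_disj _ _ hne2 hdisj,
        cen_disj _ _ ⟨i0, hi0⟩ hdisj.symm, hc1, hc2]
      have e : (rr ^ k) * (rr ^ k) = 1 / 2 ^ k := by rw [← rr_pow_sq]; ring
      push_cast
      have e2 : 1 / (Real.sqrt 2 * rr ^ k) * (1 / (Real.sqrt 2 * rr ^ k) * (1 / 2 ^ k - 0) -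
          1 / (Real.sqrt 2 * rr ^ k) * (0 - 1 / 2 ^ k))
          = 1 / ((Real.sqrt 2 * Real.sqrt 2) * (rr ^ k * rr ^ k)) * (2 / 2 ^ k) := by
        field_simp
        ring
      rw [e2, hs2, e]
      field_simp
    have hxy : ⟪x, y⟫_ℝ = 0 := by
      rw [hy, inner_smul_right, inner_sub_right, inner_cen S2 hne2 x a (fun i hi => hxa i (hsub2 hi)),
        inner_cen S1 ⟨i0, hi0⟩ x a (fun i hi => hxa i (hS1 hi))]
      simp
    have hxx : ⟪x, x⟫_ℝ = 1 := by rw [real_inner_self_eq_norm_sq, hx]; norm_num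
    obtain ⟨h, hh⟩ : ∃ h : ℝ, h = rr ^ (k + 1) / Real.sqrt 3 := ⟨_, rfl⟩
    have hhpos : 0 < h := by rw [hh]; exact div_pos (pow_pos rr_pos _) h3
    have hcS : cen S = (1/2 : ℝ) • cen S1 + (1/2 : ℝ) • cen S2 := by
      ext j
      simp only [PiLp.add_apply, PiLp.smul_apply, smul_eq_mul, cen_apply, hc1, hc2, hS]
      by_cases hj1 : j ∈ S1
      · have hj2 : j ∉ S2 := Finset.disjoint_left.1 hdisj hj1
        simp only [hj1, hj2, hS1 hj1, if_true, if_false]
        push_cast
        rw [pow_succ]; field_simp; ring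
      · by_cases hjS : j ∈ S
        · have hj2 : j ∈ S2 := Finset.mem_sdiff.2 ⟨hjS, hj1⟩
          simp only [hj1, hj2, hjS, if_true, if_false]
          push_cast
          rw [pow_succ]; field_simp; ring
        · have hj2 : j ∉ S2 := fun h => hjS (hsub2 h)
          simp [hj1, hj2, hjS]
    have hsqy : (Real.sqrt 3 * h) • y = (1/2 : ℝ) • (cen S2 - cen S1) := by
      rw [hy, smul_smul]
      congr 1
      rw [hh, pow_succ]
      have hu : rr = 1 / Real.sqrt 2 := rfl
      rw [show Real.sqrt 3 * (rr ^ k * rr / Real.sqrt 3) * (1 / (Real.sqrt 2 * rr ^ k)) = rr / Real.sqrt 2 by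
        field_simp]
      rw [hu, div_div, hs2]
    have hn : ∀ σ : ℝ, σ ^ 2 = 1 → ‖(1/2 : ℝ) • x + (σ * (Real.sqrt 3 / 2)) • y‖ = 1 := by
      intro σ hσ
      have : ‖(1/2 : ℝ) • x + (σ * (Real.sqrt 3 / 2)) • y‖ ^ 2 = 1 := by
        rw [← real_inner_self_eq_norm_sq]
        simp only [inner_add_left, inner_add_right, inner_smul_left, inner_smul_right, conj_trivial]
        rw [real_inner_comm x y, hxy, hyy, hxx]
        linear_combination (σ ^ 2 / 4) * h33 + (3/4) * hσ
      have h0 := norm_nonneg ((1/2 : ℝ) • x + (σ * (Real.sqrt 3 / 2)) • y)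
      nlinarith
    have ht2 : rr ^ k / Real.sqrt 3 ≤ 2 * h := by
      rw [hh, pow_succ, ← mul_div_assoc]
      apply div_le_div_of_nonneg_right _ h3.le
      have := rr_gt
      nlinarith
    obtain ⟨T1, a1, a2, a3⟩ := ih S1 hc1 ((1/2 : ℝ) • x + (1 * (Real.sqrt 3 / 2)) • y)
      (hn 1 (by norm_num)) (by
        intro i hi j hj
        have hi2 : i ∉ S2 := Finset.disjoint_left.1 hdisj hi
        have hj2 : j ∉ S2 := Finset.disjoint_left.1 hdisj hj
        simp only [hy, PiLp.add_apply, PiLp.smul_apply, PiLp.sub_apply, smul_eq_mul, cen_apply,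
          hi, hj, hi2, hj2, hxa i (hS1 hi), hxa j (hS1 hj)]) (2 * h) ht2
    obtain ⟨T2, b1, b2, b3⟩ := ih S2 hc2 ((1/2 : ℝ) • x + ((-1) * (Real.sqrt 3 / 2)) • y)
      (hn (-1) (by norm_num)) (by
        intro i hi j hj
        have hi2 : i ∉ S1 := Finset.disjoint_right.1 hdisj hi
        have hj2 : j ∉ S1 := Finset.disjoint_right.1 hdisj hj
        simp only [hy, PiLp.add_apply, PiLp.smul_apply, PiLp.sub_apply, smul_eq_mul, cen_apply,
          hi, hj, hi2, hj2, hxa i (hsub2 hi), hxa j (hsub2 hj)]) (2 * h) ht2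
    have hP1 : cen S1 + (2 * h) • ((1/2 : ℝ) • x + (1 * (Real.sqrt 3 / 2)) • y) = cen S + h • x := by
      have : (2 * h) • ((1/2 : ℝ) • x + (1 * (Real.sqrt 3 / 2)) • y)
          = h • x + (Real.sqrt 3 * h) • y := by
        rw [smul_add, smul_smul, smul_smul]
        congr 2 <;> ring
      rw [this, hsqy, hcS]
      module
    have hP2 : cen S2 + (2 * h) • ((1/2 : ℝ) • x + ((-1) * (Real.sqrt 3 / 2)) • y)
        = cen S + h • x := by
      have : (2 * h) • ((1/2 : ℝ) • x + ((-1) * (Real.sqrt 3 / 2)) • y)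
          = h • x - (Real.sqrt 3 * h) • y := by
        rw [smul_add, smul_smul, smul_smul, sub_eq_add_neg, ← neg_smul]
        congr 2 <;> ring
      rw [this, hsqy, hcS]
      module
    rw [hP1] at a3
    rw [hP2] at b3
    have hC := (a1.union b1 (cen S + h • x) a3 b3).union
      (Conn.pair (cen S + h • x) (cen S + t • x)) (cen S + h • x)
      (Finset.mem_union_left _ a3) (by simp)
    refine ⟨_, hC.mono ?_, ?_, ?_⟩
    · have hd : dist (cen S + h • x) (cen S + t • x) = t - h := by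
        rw [dist_eq_norm]
        have : cen S + h • x - (cen S + t • x) = (h - t) • x := by module
        rw [this, norm_smul, hx, mul_one, Real.norm_eq_abs, abs_sub_comm, abs_of_nonneg]
        rw [hh]; linarith
      rw [hd]
      have hcc := cc_eq
      have h3h : 3 * h = Real.sqrt 3 * (rr ^ k * rr) := by
        rw [hh, pow_succ]
        field_simp
        linear_combination (-rr) * h33
      rw [pow_succ 2 k, pow_succ rr k]
      have : cc * (2 * 2 ^ k - rr ^ k * rr) - 2 * (cc * (2 ^ k - rr ^ k)) = (cc * (2 - rr)) * rr ^ k := by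
        ring
      rw [hcc] at this
      linarith
    · intro i hi
      by_cases hi1 : i ∈ S1
      · exact Finset.mem_union_left _ (Finset.mem_union_left _ (a2 i hi1))
      · exact Finset.mem_union_left _ (Finset.mem_union_right _ (b2 i (Finset.mem_sdiff.2 ⟨hi, hi1⟩)))
    · exact Finset.mem_union_right _ (by simp)

end

end Pool.Agent.H270R2
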