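import Mathlib
import Pool.Agent.H270R2.SimplexBlock

set_option autoImplicit false

open scoped InnerProductSpace

namespace Pool.Agent.H270R2

noncomputable section

variable {N : ℕ}

lemma dist_single_ne {i j : Fin N} (h : i ≠ j) :
    dist (EuclideanSpace.single i (1:ℝ)) (EuclideanSpace.single j (1:ℝ)) = Real.sqrt 2 := by
  rw [EuclideanSpace.dist_eq]
  congr 1
  have : ∀ x : Fin N, dist ((EuclideanSpace.single i (1:ℝ)) x) ((EuclideanSpace.single j (1:ℝ)) x) ^ 2
      = (if x = i then 1 else 0) + (if x = j then 1 else 0) := by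
    intro x
    by_cases h1 : x = i
    · subst h1
      simp [h]
    · by_cases h2 : x = j
      · subst h2; simp [h1]
      · simp [h1, h2]
  rw [Finset.sum_congr rfl (fun x _ => this x)]
  rw [Finset.sum_add_distrib]
  simp
  norm_num

lemma dist_single_le (i j : Fin N) :
    dist (EuclideanSpace.single i (1:ℝ)) (EuclideanSpace.single j (1:ℝ)) ≤ Real.sqrt 2 := by
  by_cases h : i = j
  · subst h; simp
  · rw [dist_single_ne h]

/-- Star. -/
lemma star (i0 : Fin N) (U : Finset (Fin N)) :
    ∃ T : Finset (EuclideanSpace ℝ (Fin N)), Conn T (U.card * Real.sqrt 2) ∧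
      EuclideanSpace.single i0 (1:ℝ) ∈ T ∧ ∀ i ∈ U, EuclideanSpace.single i (1:ℝ) ∈ T := by
  classical
  induction U using Finset.induction_on with
  | empty => exact ⟨{EuclideanSpace.single i0 (1:ℝ)}, by simpa using Conn.single _, by simp, by simp⟩
  | insert j U hj ih =>
    obtain ⟨T, h1, h2, h3⟩ := ih
    refine ⟨T ∪ {EuclideanSpace.single i0 (1:ℝ), EuclideanSpace.single j (1:ℝ)},
      (h1.union (Conn.pair _ _) _ h2 (by simp)).mono ?_, Finset.mem_union_left _ h2, ?_⟩
    · rw [Finset.card_insert_of_notMem hj]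
      push_cast
      have := dist_single_le i0 j
      linarith
    · intro i hi
      rcases Finset.mem_insert.1 hi with rfl | hi
      · exact Finset.mem_union_right _ (by simp)
      · exact Finset.mem_union_left _ (h3 i hi)

/-- Exact star with vertex set exactly the terminals. -/
lemma star_exact (i0 : Fin N) (U : Finset (Fin N)) (hU : i0 ∉ U) :
    Conn (insert (EuclideanSpace.single i0 (1:ℝ)) (U.image (fun i => EuclideanSpace.single i (1:ℝ))))
      (U.card * Real.sqrt 2) := by
  classical
  induction U using Finset.induction_on with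
  | empty => simpa using Conn.single _
  | insert j U hj ih =>
    have h1 := ih (fun h => hU (Finset.mem_insert_of_mem h))
    have h2 := h1.union (Conn.pair (EuclideanSpace.single i0 (1:ℝ)) (EuclideanSpace.single j (1:ℝ)))
      (EuclideanSpace.single i0 (1:ℝ)) (by simp) (by simp)
    have e : insert (EuclideanSpace.single i0 (1:ℝ))
        ((insert j U).image (fun i => EuclideanSpace.single i (1:ℝ)))
        = insert (EuclideanSpace.single i0 (1:ℝ)) (U.image (fun i => EuclideanSpace.single i (1:ℝ))) ∪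
          {EuclideanSpace.single i0 (1:ℝ), EuclideanSpace.single j (1:ℝ)} := by
      ext z
      simp only [Finset.mem_insert, Finset.mem_image, Finset.mem_union, Finset.mem_singleton]
      constructor
      · rintro (h | ⟨i, (rfl | hi), rfl⟩)
        · tauto
        · tauto
        · exact Or.inl (Or.inr ⟨i, hi, rfl⟩)
      · rintro ((h | ⟨i, hi, rfl⟩) | (h | h))
        · tauto
        · exact Or.inr ⟨i, Or.inr hi, rfl⟩
        · tauto
        · exact Or.inr ⟨j, Or.inl rfl, h.symm⟩
    rw [e]
    refine h2.mono ?_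
    rw [Finset.card_insert_of_notMem hj]
    push_cast
    have := dist_single_le i0 j
    linarith

lemma block_root (k : ℕ) (i0 : Fin N) (S : Finset (Fin N)) (hS : S.card = 2 ^ k) (h0 : i0 ∉ S) :
    ∃ T : Finset (EuclideanSpace ℝ (Fin N)), Conn T (cc * 2 ^ k + Real.sqrt 2) ∧
      EuclideanSpace.single i0 (1:ℝ) ∈ T ∧ ∀ i ∈ S, EuclideanSpace.single i (1:ℝ) ∈ T := by
  classical
  have hne : S.Nonempty := Finset.card_pos.1 (by rw [hS]; positivity)
  set v : EuclideanSpace ℝ (Fin N) := EuclideanSpace.single i0 (1:ℝ) - cen S with hv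
  have hdis : Disjoint {i0} S := by simpa using h0
  have hvv : ⟪v, v⟫_ℝ = 1 + 1 / 2 ^ k := by
    rw [hv, ← cen_singleton]
    simp only [inner_sub_left, inner_sub_right]
    rw [cen_self _ (Finset.singleton_nonempty i0), cen_self _ hne, cen_disj _ _ hne hdis,
      cen_disj _ _ (Finset.singleton_nonempty i0) hdis.symm, hS]
    simp
  have hv2 : ‖v‖ ^ 2 = 1 + 1 / 2 ^ k := by rw [← real_inner_self_eq_norm_sq, hvv]
  have hk1 : (0:ℝ) < 1 / 2 ^ k := by positivity
  have hk2 : (1:ℝ) / 2 ^ k ≤ 1 := by
    rw [div_le_one (by positivity)]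
    exact one_le_pow₀ (by norm_num)
  have hvn := norm_nonneg v
  have hv1 : 1 ≤ ‖v‖ := by nlinarith
  have hv3 : ‖v‖ ≤ Real.sqrt 2 := by
    apply Real.le_sqrt_of_sq_le; linarith
  obtain ⟨T, h1, h2, h3⟩ := block k S hS ((1 / ‖v‖) • v) (by
      rw [norm_smul, Real.norm_eq_abs, abs_of_nonneg (by positivity)]
      field_simp) (by
      intro i hi j hj
      have hi0 : i ≠ i0 := fun h => h0 (h ▸ hi)
      have hj0 : j ≠ i0 := fun h => h0 (h ▸ hj)
      simp [hv, cen_apply, hi, hj, hi0, hj0]) ‖v‖ (by
      have h3 : 1 ≤ Real.sqrt 3 := by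
        rw [Real.one_le_sqrt]; norm_num
      have : rr ^ k ≤ 1 := pow_le_one₀ rr_pos.le rr_lt.le
      rw [div_le_iff₀ (by linarith)]
      nlinarith)
  refine ⟨T, h1.mono ?_, ?_, h2⟩
  · have : 0 < cc * rr ^ k := mul_pos cc_pos (pow_pos rr_pos k)
    linarith
  · have e : cen S + ‖v‖ • ((1 / ‖v‖) • v) = EuclideanSpace.single i0 (1:ℝ) := by
      rw [smul_smul, mul_one_div, div_self (by positivity), one_smul, hv]
      abel
    rwa [e] at h3

lemma assemble (k : ℕ) (i0 : Fin N) : ∀ (m : ℕ) (U : Finset (Fin N)), U.card = m → i0 ∉ U →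
    ∃ T : Finset (EuclideanSpace ℝ (Fin N)),
      Conn T ((U.card / 2 ^ k) * (cc * 2 ^ k + Real.sqrt 2) + 2 ^ k * Real.sqrt 2) ∧
      EuclideanSpace.single i0 (1:ℝ) ∈ T ∧ ∀ i ∈ U, EuclideanSpace.single i (1:ℝ) ∈ T := by
  classical
  intro m
  induction m using Nat.strong_induction_on with
  | _ m ih =>
    intro U hU h0
    by_cases hm : 2 ^ k ≤ m
    · obtain ⟨S, hS, hSc⟩ := Finset.exists_subset_card_eq (s := U) (n := 2 ^ k) (by rw [hU]; exact hm)
      have h0S : i0 ∉ S := fun h => h0 (hS h)
      have hk0 : 0 < 2 ^ k := by positivity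
      have hcard : (U \ S).card = m - 2 ^ k := by rw [Finset.card_sdiff_of_subset hS, hU, hSc]
      obtain ⟨T1, a1, a2, a3⟩ := ih (m - 2 ^ k) (by omega) (U \ S) hcard
        (fun h => h0 (Finset.sdiff_subset h))
      obtain ⟨T2, b1, b2, b3⟩ := block_root k i0 S hSc h0S
      refine ⟨T1 ∪ T2, (a1.union b1 _ a2 b2).mono ?_, Finset.mem_union_left _ a2, ?_⟩
      · rw [hcard, hU, Nat.cast_sub hm]
        push_cast
        have : ((m:ℝ) - 2 ^ k) / 2 ^ k = m / 2 ^ k - 1 := by field_simp
        rw [this]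
        linarith
      · intro i hi
        by_cases hiS : i ∈ S
        · exact Finset.mem_union_right _ (b3 i hiS)
        · exact Finset.mem_union_left _ (a3 i (Finset.mem_sdiff.2 ⟨hi, hiS⟩))
    · obtain ⟨T, h1, h2, h3⟩ := star i0 U
      refine ⟨T, h1.mono ?_, h2, h3⟩
      push Not at hm
      have h4 : (U.card : ℝ) ≤ 2 ^ k := by rw [hU]; exact_mod_cast hm.le
      have h5 : (0:ℝ) ≤ (U.card / 2 ^ k) * (cc * 2 ^ k + Real.sqrt 2) := by
        have := cc_pos
        positivity
      have h6 : (U.card : ℝ) * Real.sqrt 2 ≤ 2 ^ k * Real.sqrt 2 := by gcongr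
      linarith

/-- A connected graph whose vertices have pairwise distance at least `s` has length at least
`s (|V| - 1)`. -/
lemma glen_ge {E : Type} [PseudoMetricSpace E] (s : ℝ) : ∀ (k : ℕ) (V : Type) [Fintype V]
    (G : SimpleGraph V) (pos : V → E), Fintype.card V = k + 1 → G.Connected →
    (∀ u v, u ≠ v → s ≤ dist (pos u) (pos v)) → s * k ≤ glen G pos := by
  intro k
  induction k with
  | zero =>
    intro V _ G pos _ _ _
    simp only [Nat.cast_zero, mul_zero]
    unfold glen
    apply div_nonneg _ (by norm_num)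
    apply Finset.sum_nonneg; intro x _
    apply Finset.sum_nonneg; intro y _
    split_ifs <;> positivity
  | succ k ih =>
    intro V _ G pos hk hG hs
    classical
    have hnt : Nontrivial V := by
      rw [← Fintype.one_lt_card_iff_nontrivial]; omega
    obtain ⟨v, hv⟩ := hG.exists_connected_induce_compl_singleton_of_finite_nontrivial
    obtain ⟨u, hu⟩ : ∃ u, G.Adj u v := by
      obtain ⟨x, hx⟩ := exists_ne v
      obtain ⟨p⟩ := hG.preconnected v x
      cases p with
      | nil => exact absurd rfl hx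
      | cons h p => exact ⟨_, h.symm⟩
    have hcard : Fintype.card ↑({v}ᶜ : Set V) = k + 1 := by
      have : Fintype.card ↑({v}ᶜ : Set V) = Fintype.card V - 1 := by
        rw [Fintype.card_compl_set]; simp
      omega
    have h1 := ih ↑({v}ᶜ : Set V) (G.induce {v}ᶜ) (fun x => pos x) hcard hv
      (fun a b hab => hs a b (fun h => hab (Subtype.ext h)))
    have h2 := glen_remove G pos hu
    have h3 := hs v u hu.ne'
    push_cast
    linarith

end

end Pool.Agent.H270R2
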